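import Pool.Agent.Helper10.RC.Basic

/-!
# Packet 2414: `z F(z* z) = F(z z*) z` and `(z z* - ε)_+ ≼ (z* z - ε)_+`
-/

open scoped ENNReal NNReal InnerProductSpace ComplexOrder
open Filter Topology

attribute [-instance] CStarMatrix.instAlgebra CStarMatrix.instModule CStarMatrix.instSMul
  CStarMatrix.instMulAction CStarMatrix.instDistribMulAction

noncomputable section
namespace RC
universe u

namespace H89

variable {A : Type u} [CStarAlgebra A] [PartialOrder A] [StarOrderedRing A]
variable {ι κ : Type} [Fintype ι] [DecidableEq ι] [Fintype κ] [DecidableEq κ]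

theorem int_pow (z : CStarMatrix ι κ A) (n : ℕ) :
    z * (z.conjTranspose * z) ^ n = (z * z.conjTranspose) ^ n * z := by
  induction n with
  | zero => rw [pow_zero, pow_zero, cm_mul_one, cm_one_mul]
  | succ n ih =>
      rw [pow_succ, pow_succ, ← cm_assoc, ih, cm_assoc, cm_assoc, cm_assoc]

theorem int_poly (z : CStarMatrix ι κ A) (P : Polynomial ℝ) :
    z * Polynomial.aeval (z.conjTranspose * z) P =
      Polynomial.aeval (z * z.conjTranspose) P * z := by
  induction P using Polynomial.induction_on' with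
  | add p q hp hq =>
      rw [map_add, map_add]
      have e1 : z * (Polynomial.aeval (z.conjTranspose * z) p +
          Polynomial.aeval (z.conjTranspose * z) q) =
          z * Polynomial.aeval (z.conjTranspose * z) p +
            z * Polynomial.aeval (z.conjTranspose * z) q := Matrix.mul_add _ _ _
      have e2 : (Polynomial.aeval (z * z.conjTranspose) p +
          Polynomial.aeval (z * z.conjTranspose) q) * z =
          Polynomial.aeval (z * z.conjTranspose) p * z +
            Polynomial.aeval (z * z.conjTranspose) q * z := Matrix.add_mul _ _ _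
      rw [e1, e2, hp, hq]
  | monomial n c =>
      rw [Polynomial.aeval_monomial, Polynomial.aeval_monomial, ← Algebra.smul_def,
        ← Algebra.smul_def]
      have e1 := cm_mul_rsmul z c ((z.conjTranspose * z) ^ n)
      have e2 := cm_rsmul_mul ((z * z.conjTranspose) ^ n) c z
      have e3 := int_pow z n
      calc z * (c • (z.conjTranspose * z) ^ n) = c • (z * (z.conjTranspose * z) ^ n) := e1
        _ = c • ((z * z.conjTranspose) ^ n * z) := by rw [e3]
        _ = _ := e2.symm

theorem sa1 (z : CStarMatrix ι κ A) : IsSelfAdjoint (z.conjTranspose * z) :=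
  (cm_conj_mul_nonneg z).isSelfAdjoint

theorem sa2 (z : CStarMatrix ι κ A) : IsSelfAdjoint (z * z.conjTranspose) :=
  (cm_mul_conj_nonneg z).isSelfAdjoint

theorem near_poly {D : Type u} [CStarAlgebra D] (a : D) (ha : IsSelfAdjoint a) (F : ℝ → ℝ)
    (hF : Continuous F) (P : Polynomial ℝ) (R δ : ℝ) (hδ : 0 ≤ δ)
    (hR : ∀ x ∈ spectrum ℝ a, x ∈ Set.Icc (-R) R)
    (hP : ∀ x ∈ Set.Icc (-R) R, |P.eval x - F x| < δ) :
    ‖cfc F a - Polynomial.aeval a P‖ ≤ δ := by
  rw [← cfc_polynomial P a, ← cfc_sub F P.eval a]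
  refine norm_cfc_le hδ fun x hx => ?_
  rw [Real.norm_eq_abs, abs_sub_comm]
  exact (hP x (hR x hx)).le

end H89

open H89

theorem intP : IntP.{u} := by
  intro A _ _ _ ι κ _ _ _ _ z F hF
  rw [← sub_eq_zero, ← norm_le_zero_iff]
  have hc1 : IsCompact (spectrum ℝ (z.conjTranspose * z)) :=
    ContinuousFunctionalCalculus.isCompact_spectrum (R := ℝ) _
  have hc2 : IsCompact (spectrum ℝ (z * z.conjTranspose)) :=
    ContinuousFunctionalCalculus.isCompact_spectrum (R := ℝ) _
  obtain ⟨R, hR⟩ := (hc1.union hc2).isBounded.subset_closedBall 0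
  have hR1 : ∀ x ∈ spectrum ℝ (z.conjTranspose * z), x ∈ Set.Icc (-R) R := by
    intro x hx
    have := hR (Or.inl hx)
    rw [Real.closedBall_eq_Icc] at this
    simpa using this
  have hR2 : ∀ x ∈ spectrum ℝ (z * z.conjTranspose), x ∈ Set.Icc (-R) R := by
    intro x hx
    have := hR (Or.inr hx)
    rw [Real.closedBall_eq_Icc] at this
    simpa using this
  refine le_of_forall_pos_le_add fun e he => ?_
  set δ : ℝ := e / (2 * ‖z‖ + 1) with hδ
  have hδ0 : 0 < δ := by positivity
  obtain ⟨P, hP⟩ := exists_polynomial_near_of_continuousOn (-R) R F hF.continuousOn δ hδ0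
  have h1 := near_poly _ (sa1 z) F hF P R δ hδ0.le hR1 hP
  have h2 := near_poly _ (sa2 z) F hF P R δ hδ0.le hR2 hP
  have e1 : z * cfc F (z.conjTranspose * z) - cfc F (z * z.conjTranspose) * z =
      z * (cfc F (z.conjTranspose * z) - Polynomial.aeval (z.conjTranspose * z) P) -
      (cfc F (z * z.conjTranspose) - Polynomial.aeval (z * z.conjTranspose) P) * z := by
    rw [cm_mul_sub, cm_sub_mul, int_poly]
    abel
  rw [e1]
  have h3 := norm_sub_le
    (z * (cfc F (z.conjTranspose * z) - Polynomial.aeval (z.conjTranspose * z) P))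
    ((cfc F (z * z.conjTranspose) - Polynomial.aeval (z * z.conjTranspose) P) * z)
  have h4 := cm_norm_mul_le z
    (cfc F (z.conjTranspose * z) - Polynomial.aeval (z.conjTranspose * z) P)
  have h5 := cm_norm_mul_le
    (cfc F (z * z.conjTranspose) - Polynomial.aeval (z * z.conjTranspose) P) z
  have h6 : ‖z‖ * ‖cfc F (z.conjTranspose * z) - Polynomial.aeval (z.conjTranspose * z) P‖ ≤
      ‖z‖ * δ := by gcongr
  have h7 : ‖cfc F (z * z.conjTranspose) - Polynomial.aeval (z * z.conjTranspose) P‖ * ‖z‖ ≤
      δ * ‖z‖ := by gcongr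
  have h8 : 2 * ‖z‖ * δ ≤ e := by
    have : (2 * ‖z‖ + 1) * δ = e := by
      rw [hδ]; field_simp
    nlinarith
  linarith

theorem cuSwapP (h : IntP.{u}) : CuSwapP.{u} := by
  intro A _ _ _ ι κ _ _ _ _ z ε hε δ hδ
  set η : ℝ := δ / 2 with hη
  have hη0 : 0 < η := by positivity
  set l : ℝ → ℝ := fun t => (Real.sqrt (max t 0 + η))⁻¹ with hl
  have hpos : ∀ t : ℝ, 0 < max t 0 + η := fun t => by
    have := le_max_right t 0
    linarith
  have hlc : Continuous l := by
    refine Continuous.inv₀ (by fun_prop) fun t => ?_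
    exact (Real.sqrt_pos.2 (hpos t)).ne'
  set f : ℝ → ℝ := fun t => max (t - ε) 0 / (max t 0 + η) with hf
  have hfc : Continuous f := by
    refine Continuous.div (by fun_prop) (by fun_prop) fun t => (hpos t).ne'
  set a := z.conjTranspose * z with ha
  set b := z * z.conjTranspose with hb
  have sa : IsSelfAdjoint a := sa1 z
  have sb : IsSelfAdjoint b := sa2 z
  refine ⟨z * cfc l a, ?_⟩
  have hstar : (cfc l a).conjTranspose = cfc l a := by
    have : IsSelfAdjoint (cfc l a) := cfc_predicate l a
    exact this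
  have e1 : (z * cfc l a) * cut a ε * (z * cfc l a).conjTranspose = cfc (fun t => f t * t) b := by
    rw [cm_conj_mul, hstar]
    have e2 : cfc l a * cut a ε * cfc l a = cfc f a := by
      unfold cut
      rw [← cfc_mul l (fun t : ℝ => max (t - ε) 0) a, ← cfc_mul _ l a]
      refine cfc_congr fun t _ => ?_
      simp only [hl, hf]
      have hs := Real.mul_self_sqrt (hpos t).le
      have hs0 : Real.sqrt (max t 0 + η) ≠ 0 := (Real.sqrt_pos.2 (hpos t)).ne'
      field_simp
      rw [sq, hs]
    calc z * cfc l a * cut a ε * (cfc l a * z.conjTranspose)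
        = z * (cfc l a * cut a ε * cfc l a) * z.conjTranspose := by
          simp only [cm_assoc]
      _ = z * cfc f a * z.conjTranspose := by rw [e2]
      _ = cfc f b * z * z.conjTranspose := by rw [ha, hb, h A ι κ z f hfc]
      _ = cfc f b * b := by rw [cm_assoc]
      _ = cfc (fun t => f t * t) b := by
          rw [cfc_mul f (fun t => t) b, cfc_id' ℝ b]
  rw [e1]
  unfold cut
  rw [← cfc_sub (fun t => f t * t) (fun t : ℝ => max (t - ε) 0) b]
  refine lt_of_le_of_lt (norm_cfc_le hη0.le fun t ht => ?_) (half_lt_self hδ)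
  have ht0 : 0 ≤ t := spectrum_nonneg_of_nonneg (cm_mul_conj_nonneg z) ht
  simp only [hf]
  rw [max_eq_left ht0, Real.norm_eq_abs]
  have hq : 0 < t + η := by linarith
  have hm0 : 0 ≤ max (t - ε) 0 := le_max_right _ _
  have hm1 : max (t - ε) 0 ≤ t := max_le (by linarith) ht0
  have e3 : max (t - ε) 0 / (t + η) * t - max (t - ε) 0 = -(max (t - ε) 0 * η / (t + η)) := by
    field_simp
    ring
  rw [e3, abs_neg, abs_of_nonneg (by positivity), div_le_iff₀ hq]
  nlinarith

end RC
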